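import Mathlib
import Pool.Agent.H16.YBE8

set_option autoImplicit false

namespace Pool.Agent.Results.MP_9f168b_al.Yes

open Pool.Agent.H16.YBE8

theorem result : ∃ (Y Z : Type) (_ : Finite Y) (_ : Finite Z) (r : (Y × Z) × (Y × Z) → (Y × Z) × (Y × Z)),
    1 < Nat.card Y ∧ 1 < Nat.card Z ∧ IsSol r ∧ Simple r ∧
    (∀ g ∈ PermGroup r, ∀ y : Y, ∃ y' : Y, g '' {p | p.1 = y} = {p | p.1 = y'}) ∧
    ¬ Nat.card Z ∣ Nat.card Y :=
  ⟨Fin 2, Fin 4, inferInstance, inferInstance, r, by simp, by simp, sol, simple, blocks, by simp⟩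

end Pool.Agent.Results.MP_9f168b_al.Yes
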